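import Pool.Agent.Y782.UG.Base2

/-!
# Finite blocks (project UG of helper782, part UG-T2)
-/

set_option autoImplicit false

open MeasureTheory ProbabilityTheory Filter Topology
open scoped ENNReal BigOperators

namespace Pool.Agent.Y532.UG.T2

open Pool.Agent.Y782.UG

variable {Δ : ℕ}

/-- edges of finite blocks -/
def Cond (r : Tr Δ → ℝ) (u v : Tr Δ) : Prop := Ed r u v ∧ size r u + size r v ≠ ⊤

open Classical in
/-- the weight -/
noncomputable def w (r : Tr Δ → ℝ) (u v : Tr Δ) : ℝ≥0∞ :=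
  if Cond r u v then ((size r u : ℕ∞) : ℝ≥0∞) /
    (((size r u : ℕ∞) : ℝ≥0∞) + ((size r v : ℕ∞) : ℝ≥0∞)) else 0

open Classical in
/-- the symmetric weight -/
noncomputable def s (r : Tr Δ → ℝ) (u v : Tr Δ) : ℝ≥0∞ := if Cond r u v then 1 else 0

lemma cond_symm {r : Tr Δ → ℝ} {u v : Tr Δ} : Cond r u v ↔ Cond r v u := by
  unfold Cond Ed
  rw [add_comm (size r u), mul_comm (r u)]
  tauto

lemma w_add (r : Tr Δ → ℝ) (u v : Tr Δ) : w r u v + w r v u = s r u v := by
  classical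
  unfold w s
  by_cases h : Cond r u v
  · rw [if_pos h, if_pos (cond_symm.mp h), if_pos h]
    rw [add_comm ((size r v : ℕ∞) : ℝ≥0∞) ((size r u : ℕ∞) : ℝ≥0∞), ENNReal.div_add_div_same]
    apply ENNReal.div_self
    · have h1 : (1 : ℝ≥0∞) ≤ ((size r u : ℕ∞) : ℝ≥0∞) := by
        have := size_ge_one r u
        exact_mod_cast this
      intro h0
      rw [add_eq_zero] at h0
      rw [h0.1] at h1
      exact absurd h1 (by norm_num)
    · have h1 := h.2
      intro h0
      apply h1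
      rw [← ENat.toENNReal_add, ENat.toENNReal_eq_top] at h0
      exact h0
  · rw [if_neg h, if_neg (fun h' => h (cond_symm.mpr h')), if_neg h, add_zero]

lemma meas_cond {r : Tr Δ → ℝ} (hr : Measurable r) :
    MeasurableSet {x : Tr Δ × Tr Δ | Cond r x.1 x.2} := by
  have h1 : Measurable (fun x : Tr Δ × Tr Δ => size r x.1 + size r x.2) :=
    ((measurable_size hr).comp measurable_fst).add ((measurable_size hr).comp measurable_snd)
  exact (measurableSet_Ed hr).inter (h1 (MeasurableSet.of_discrete (s := {x | x ≠ (⊤ : ℕ∞)})))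

lemma meas_cast {r : Tr Δ → ℝ} (hr : Measurable r) :
    Measurable (fun t : Tr Δ => ((size r t : ℕ∞) : ℝ≥0∞)) :=
  (Measurable.of_discrete (f := fun n : ℕ∞ => (n : ℝ≥0∞))).comp (measurable_size hr)

lemma meas_w {r : Tr Δ → ℝ} (hr : Measurable r) :
    Measurable (fun x : Tr Δ × Tr Δ => w r x.1 x.2) := by
  classical
  unfold w
  refine Measurable.ite (meas_cond hr) ?_ measurable_const
  exact ((meas_cast hr).comp measurable_fst).div
    (((meas_cast hr).comp measurable_fst).add ((meas_cast hr).comp measurable_snd))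

lemma meas_s {r : Tr Δ → ℝ} (hr : Measurable r) :
    Measurable (fun x : Tr Δ × Tr Δ => s r x.1 x.2) := by
  classical
  unfold s
  exact Measurable.ite (meas_cond hr) measurable_const measurable_const

lemma cast_sum (f : ℕ → ℕ∞) (S : Finset ℕ) :
    ((∑ i ∈ S, f i : ℕ∞) : ℝ≥0∞) = ∑ i ∈ S, ((f i : ℕ∞) : ℝ≥0∞) := by
  classical
  induction S using Finset.induction_on with
  | empty => simp
  | insert a S ha ih => rw [Finset.sum_insert ha, Finset.sum_insert ha, ENat.toENNReal_add, ih]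

section typ
variable {lam : ℝ} {m r D : Tr Δ → ℝ} {F : Set (Tr Δ)}

lemma cond_iff (h : Typ Δ lam m r D F) (t : Tr Δ) {i : ℕ} (hi : i < nch t) :
    Cond r (sub t i) (rem t i) ↔
      t ∈ Bk lam r F ∩ {t | size r t ≠ ⊤} ∧ r (sub t i) ≠ 0 := by
  unfold Cond
  rw [ed_iff h t hi]
  constructor
  · rintro ⟨⟨h1, h2⟩, h3⟩
    refine ⟨⟨h1, ?_⟩, h2⟩
    show size r t ≠ ⊤
    rw [size_rem_good r t hi h2, add_comm]
    exact h3
  · rintro ⟨⟨h1, h2⟩, h3⟩
    refine ⟨⟨h1, h3⟩, ?_⟩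
    have h4 : size r t ≠ ⊤ := h2
    rw [size_rem_good r t hi h3, add_comm] at h4
    exact h4

lemma claim (h : Typ Δ lam m r D F) (t : Tr Δ) (ht : t ∈ Bk lam r F ∩ {t | size r t ≠ ⊤}) :
    1 = ((size r t : ℕ∞) : ℝ≥0∞)⁻¹ + ∑ i ∈ Finset.range (nch t), w r (sub t i) (rem t i) := by
  classical
  obtain ⟨n, hn⟩ : ∃ n : ℝ≥0∞, n = ((size r t : ℕ∞) : ℝ≥0∞) := ⟨_, rfl⟩
  have hn0 : n ≠ 0 := by
    have h1 : (1 : ℝ≥0∞) ≤ n := by
      rw [hn]
      have := size_ge_one r t
      exact_mod_cast this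
    intro h0
    rw [h0] at h1
    exact absurd h1 (by norm_num)
  have hnt : n ≠ ⊤ := by
    rw [hn]
    intro h0
    rw [ENat.toENNReal_eq_top] at h0
    exact ht.2 h0
  have h1 : n = 1 + ∑ i ∈ Finset.range (nch t),
      (if r (sub t i) ≠ 0 then ((size r (sub t i) : ℕ∞) : ℝ≥0∞) else 0) := by
    rw [hn, size_eq r t, ENat.toENNReal_add, cast_sum, ENat.toENNReal_one]
    congr 1
    refine Finset.sum_congr rfl fun i _ => ?_
    split_ifs
    · rfl
    · exact ENat.toENNReal_zero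
  have h2 : ∀ i ∈ Finset.range (nch t), w r (sub t i) (rem t i) =
      (if r (sub t i) ≠ 0 then ((size r (sub t i) : ℕ∞) : ℝ≥0∞) else 0) / n := by
    intro i hi
    have hi' := Finset.mem_range.mp hi
    unfold w
    by_cases hr : r (sub t i) ≠ 0
    · rw [if_pos ((cond_iff h t hi').mpr ⟨ht, hr⟩), if_pos hr]
      congr 1
      rw [hn, size_rem_good r t hi' hr, ENat.toENNReal_add, add_comm]
    · rw [if_neg (fun hc => hr ((cond_iff h t hi').mp hc).2), if_neg hr, ENNReal.zero_div]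
  rw [← hn, Finset.sum_congr rfl h2]
  simp only [div_eq_mul_inv]
  rw [← Finset.sum_mul]
  nth_rw 1 [← one_mul n⁻¹]
  rw [← add_mul, ← h1]
  exact (ENNReal.mul_inv_cancel hn0 hnt).symm

end typ

/-- **UG-T2.** -/
theorem t2 : S_T2 := by
  classical
  intro Δ p ph _ _ mb hTR lam m r D F h
  have hI : MeasurableSet (Bk lam r F ∩ {t : Tr Δ | size r t ≠ ⊤}) :=
    (measurableSet_Bk h.mr h.mF).inter
      (measurable_size h.mr (MeasurableSet.of_discrete (s := {x | x ≠ (⊤ : ℕ∞)})))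
  have hz : ∀ t : Tr Δ, t ∉ Bk lam r F ∩ {t | size r t ≠ ⊤} → ∀ i ∈ Finset.range (nch t),
      ¬ Cond r (sub t i) (rem t i) := by
    intro t ht i hi hc
    exact ht ((cond_iff h t (Finset.mem_range.mp hi)).mp hc).1
  have hm : Measurable ((Bk lam r F ∩ {t : Tr Δ | size r t ≠ ⊤}).indicator
      (fun t => ((size r t : ℕ∞) : ℝ≥0∞)⁻¹)) := ((meas_cast h.mr).inv).indicator hI
  have h1 : Q0 p ph (Bk lam r F ∩ {t | size r t ≠ ⊤}) =
      ∫⁻ t in Bk lam r F ∩ {t | size r t ≠ ⊤}, ((size r t : ℕ∞) : ℝ≥0∞)⁻¹ ∂(Q0 p ph) +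
      ∫⁻ t, ∑ i ∈ Finset.range (nch t), w r (sub t i) (rem t i) ∂(Q0 p ph) := by
    rw [← lintegral_indicator_one hI, ← lintegral_indicator hI, ← lintegral_add_left hm]
    refine lintegral_congr fun t => ?_
    by_cases ht : t ∈ Bk lam r F ∩ {t | size r t ≠ ⊤}
    · rw [Set.indicator_of_mem ht, Set.indicator_of_mem ht]
      exact claim h t ht
    · rw [Set.indicator_of_notMem ht, Set.indicator_of_notMem ht, zero_add]
      symm
      refine Finset.sum_eq_zero fun i hi => ?_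
      unfold w
      rw [if_neg (hz t ht i hi)]
  have h2 := half hTR (w r) (s r) (meas_w h.mr) (meas_s h.mr) (w_add r)
  have h3 : ∫⁻ t, ∑ i ∈ Finset.range (nch t), s r (sub t i) (rem t i) ∂(Q0 p ph) =
      ∫⁻ t in Bk lam r F ∩ {t | size r t ≠ ⊤}, (dg r t : ℝ≥0∞) ∂(Q0 p ph) := by
    rw [← lintegral_indicator hI]
    refine lintegral_congr fun t => ?_
    by_cases ht : t ∈ Bk lam r F ∩ {t | size r t ≠ ⊤}
    · rw [Set.indicator_of_mem ht, dg_eq]
      refine Finset.sum_congr rfl fun i hi => ?_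
      have hi' := Finset.mem_range.mp hi
      unfold s
      by_cases hr : r (sub t i) ≠ 0
      · rw [if_pos ((cond_iff h t hi').mpr ⟨ht, hr⟩)]
        rw [Set.indicator_of_mem (show sub t i ∈ {u | r u ≠ 0} from hr)]
      · rw [if_neg (fun hc => hr ((cond_iff h t hi').mp hc).2)]
        rw [Set.indicator_of_notMem (show sub t i ∉ {u | r u ≠ 0} from hr)]
    · rw [Set.indicator_of_notMem ht]
      refine Finset.sum_eq_zero fun i hi => ?_
      unfold s
      rw [if_neg (hz t ht i hi)]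
  rw [h1, mul_add, h2, h3]

end Pool.Agent.Y532.UG.T2
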