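import Pool.Agent.Y782.UG.Base2

/-!
# Infinite blocks have mean degree at least two (project UG of helper782, part UG-T3)
-/

set_option autoImplicit false

open MeasureTheory ProbabilityTheory Filter Topology
open scoped ENNReal BigOperators

namespace Pool.Agent.Y532.UG.T3

open Pool.Agent.Y782.UG

variable {Δ : ℕ}

/-- edges of infinite blocks -/
def Cond (r : Tr Δ → ℝ) (u v : Tr Δ) : Prop := Ed r u v ∧ size r u + size r v = ⊤

open Classical in
/-- the weight -/
noncomputable def w (r : Tr Δ → ℝ) (u v : Tr Δ) : ℝ≥0∞ :=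
  if Cond r u v then (if size r u = ⊤ then (if size r v = ⊤ then 1 / 2 else 1) else 0) else 0

open Classical in
/-- the symmetric weight -/
noncomputable def s (r : Tr Δ → ℝ) (u v : Tr Δ) : ℝ≥0∞ := if Cond r u v then 1 else 0

lemma cond_symm {r : Tr Δ → ℝ} {u v : Tr Δ} : Cond r u v ↔ Cond r v u := by
  unfold Cond Ed
  rw [add_comm (size r u), mul_comm (r u)]
  tauto

lemma w_add (r : Tr Δ → ℝ) (u v : Tr Δ) : w r u v + w r v u = s r u v := by
  classical
  unfold w s
  by_cases h : Cond r u v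
  · rw [if_pos h, if_pos (cond_symm.mp h), if_pos h]
    by_cases h1 : size r u = ⊤
    · by_cases h2 : size r v = ⊤
      · rw [if_pos h1, if_pos h2, if_pos h2, if_pos h1]
        rw [one_div]
        exact ENNReal.inv_two_add_inv_two
      · rw [if_pos h1, if_neg h2, if_neg h2, add_zero]
    · by_cases h2 : size r v = ⊤
      · rw [if_neg h1, if_pos h2, if_neg h1, zero_add]
      · exfalso
        rcases WithTop.add_eq_top.mp h.2 with h3 | h3
        · exact h1 h3
        · exact h2 h3
  · rw [if_neg h, if_neg (fun h' => h (cond_symm.mpr h')), if_neg h, add_zero]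

lemma meas_cond {r : Tr Δ → ℝ} (hr : Measurable r) :
    MeasurableSet {x : Tr Δ × Tr Δ | Cond r x.1 x.2} := by
  have h1 : Measurable (fun x : Tr Δ × Tr Δ => size r x.1 + size r x.2) :=
    ((measurable_size hr).comp measurable_fst).add ((measurable_size hr).comp measurable_snd)
  exact (measurableSet_Ed hr).inter (h1 (MeasurableSet.of_discrete (s := {(⊤ : ℕ∞)})))

lemma meas_top1 {r : Tr Δ → ℝ} (hr : Measurable r) :
    MeasurableSet {x : Tr Δ × Tr Δ | size r x.1 = ⊤} :=
  ((measurable_size hr).comp measurable_fst) (MeasurableSet.of_discrete (s := {(⊤ : ℕ∞)}))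

lemma meas_top2 {r : Tr Δ → ℝ} (hr : Measurable r) :
    MeasurableSet {x : Tr Δ × Tr Δ | size r x.2 = ⊤} :=
  ((measurable_size hr).comp measurable_snd) (MeasurableSet.of_discrete (s := {(⊤ : ℕ∞)}))

lemma meas_w {r : Tr Δ → ℝ} (hr : Measurable r) :
    Measurable (fun x : Tr Δ × Tr Δ => w r x.1 x.2) := by
  classical
  unfold w
  exact Measurable.ite (meas_cond hr) (Measurable.ite (meas_top1 hr)
    (Measurable.ite (meas_top2 hr) measurable_const measurable_const) measurable_const)
    measurable_const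

lemma meas_s {r : Tr Δ → ℝ} (hr : Measurable r) :
    Measurable (fun x : Tr Δ × Tr Δ => s r x.1 x.2) := by
  classical
  unfold s
  exact Measurable.ite (meas_cond hr) measurable_const measurable_const

lemma sum_ne_top (f : ℕ → ℕ∞) (S : Finset ℕ) (h : ∀ i ∈ S, f i ≠ ⊤) : ∑ i ∈ S, f i ≠ ⊤ := by
  classical
  induction S using Finset.induction_on with
  | empty => simp
  | insert a S ha ih =>
    rw [Finset.sum_insert ha]
    intro hc
    rcases WithTop.add_eq_top.mp hc with h1 | h1
    · exact h a (Finset.mem_insert_self _ _) h1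
    · exact ih (fun i hi => h i (Finset.mem_insert_of_mem hi)) h1

/-- an infinite cluster has an infinite branch -/
lemma exists_branch (r : Tr Δ → ℝ) (t : Tr Δ) (h : size r t = ⊤) :
    ∃ i < nch t, r (sub t i) ≠ 0 ∧ size r (sub t i) = ⊤ := by
  classical
  by_contra hcon
  push Not at hcon
  rw [size_eq] at h
  rcases WithTop.add_eq_top.mp h with h1 | h1
  · exact absurd h1 (by decide)
  · refine sum_ne_top _ _ (fun i hi => ?_) h1
    by_cases hr : r (sub t i) ≠ 0
    · rw [if_pos hr]
      exact hcon i (Finset.mem_range.mp hi) hr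
    · rw [if_neg hr]
      exact ENat.zero_ne_top

section typ
variable {lam : ℝ} {m r D : Tr Δ → ℝ} {F : Set (Tr Δ)}

lemma cond_iff (h : Typ Δ lam m r D F) (t : Tr Δ) {i : ℕ} (hi : i < nch t) :
    Cond r (sub t i) (rem t i) ↔
      t ∈ Bk lam r F ∩ {t | size r t = ⊤} ∧ r (sub t i) ≠ 0 := by
  unfold Cond
  rw [ed_iff h t hi]
  constructor
  · rintro ⟨⟨h1, h2⟩, h3⟩
    refine ⟨⟨h1, ?_⟩, h2⟩
    show size r t = ⊤
    rw [size_rem_good r t hi h2, add_comm]
    exact h3
  · rintro ⟨⟨h1, h2⟩, h3⟩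
    refine ⟨⟨h1, h3⟩, ?_⟩
    have h4 : size r t = ⊤ := h2
    rw [size_rem_good r t hi h3, add_comm] at h4
    exact h4

lemma w_ge (h : Typ Δ lam m r D F) (t : Tr Δ) (ht : t ∈ Bk lam r F ∩ {t | size r t = ⊤}) {i : ℕ}
    (hi : i < nch t) (hr : r (sub t i) ≠ 0) (hs : size r (sub t i) = ⊤) :
    1 / 2 ≤ w r (sub t i) (rem t i) := by
  classical
  unfold w
  rw [if_pos ((cond_iff h t hi).mpr ⟨ht, hr⟩), if_pos hs]
  split_ifs
  · exact le_rfl
  · rw [one_div]
    exact ENNReal.inv_le_one.mpr (by norm_num)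

lemma claim (h : Typ Δ lam m r D F) (t : Tr Δ) (ht : t ∈ Bk lam r F ∩ {t | size r t = ⊤}) :
    1 ≤ ∑ i ∈ Finset.range (nch t), w r (sub t i) (rem t i) := by
  classical
  obtain ⟨i0, hi0, hr0, hs0⟩ := exists_branch r t ht.2
  by_cases hrem : size r (rem t i0) = ⊤
  · obtain ⟨j', hj', hrj, hsj⟩ := exists_branch r (rem t i0) hrem
    rw [nch_rem] at hj'
    rw [sub_rem] at hrj hsj
    obtain ⟨j, hj⟩ : ∃ j, j = (if j' < i0 then j' else j' + 1) := ⟨_, rfl⟩
    rw [← hj] at hrj hsj
    have hjt : j < nch t := by rw [hj]; split_ifs <;> omega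
    have hne : i0 ≠ j := by rw [hj]; split_ifs <;> omega
    have h1 := w_ge h t ht hi0 hr0 hs0
    have h2 := w_ge h t ht hjt hrj hsj
    have h3 : ∑ i ∈ ({i0, j} : Finset ℕ), w r (sub t i) (rem t i) ≤
        ∑ i ∈ Finset.range (nch t), w r (sub t i) (rem t i) := by
      refine Finset.sum_le_sum_of_subset ?_
      intro i hi
      rw [Finset.mem_insert, Finset.mem_singleton] at hi
      rw [Finset.mem_range]
      rcases hi with rfl | rfl
      · exact hi0
      · exact hjt
    rw [Finset.sum_pair hne] at h3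
    refine le_trans ?_ h3
    calc (1 : ℝ≥0∞) = 1 / 2 + 1 / 2 := by
          rw [one_div]
          exact ENNReal.inv_two_add_inv_two.symm
      _ ≤ _ := add_le_add h1 h2
  · have h1 : w r (sub t i0) (rem t i0) = 1 := by
      unfold w
      rw [if_pos ((cond_iff h t hi0).mpr ⟨ht, hr0⟩), if_pos hs0, if_neg hrem]
    rw [← h1]
    exact Finset.single_le_sum (f := fun i => w r (sub t i) (rem t i))
      (fun i _ => bot_le) (Finset.mem_range.mpr hi0)

end typ

/-- **UG-T3.** -/
theorem t3 : S_T3 := by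
  classical
  intro Δ p ph _ _ mb hTR lam m r D F h
  have hI : MeasurableSet (Bk lam r F ∩ {t : Tr Δ | size r t = ⊤}) :=
    (measurableSet_Bk h.mr h.mF).inter
      (measurable_size h.mr (MeasurableSet.of_discrete (s := {(⊤ : ℕ∞)})))
  have h1 : Q0 p ph (Bk lam r F ∩ {t | size r t = ⊤}) ≤
      ∫⁻ t, ∑ i ∈ Finset.range (nch t), w r (sub t i) (rem t i) ∂(Q0 p ph) := by
    rw [← lintegral_indicator_one hI]
    refine lintegral_mono fun t => ?_
    by_cases ht : t ∈ Bk lam r F ∩ {t | size r t = ⊤}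
    · rw [Set.indicator_of_mem ht]
      exact claim h t ht
    · rw [Set.indicator_of_notMem ht]
      exact bot_le
  have h2 := half hTR (w r) (s r) (meas_w h.mr) (meas_s h.mr) (w_add r)
  have h3 : ∫⁻ t, ∑ i ∈ Finset.range (nch t), s r (sub t i) (rem t i) ∂(Q0 p ph) =
      ∫⁻ t in Bk lam r F ∩ {t | size r t = ⊤}, (dg r t : ℝ≥0∞) ∂(Q0 p ph) := by
    rw [← lintegral_indicator hI]
    refine lintegral_congr fun t => ?_
    by_cases ht : t ∈ Bk lam r F ∩ {t | size r t = ⊤}
    · rw [Set.indicator_of_mem ht, dg_eq]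
      refine Finset.sum_congr rfl fun i hi => ?_
      have hi' := Finset.mem_range.mp hi
      unfold s
      by_cases hr : r (sub t i) ≠ 0
      · rw [if_pos ((cond_iff h t hi').mpr ⟨ht, hr⟩)]
        rw [Set.indicator_of_mem (show sub t i ∈ {u | r u ≠ 0} from hr)]
      · rw [if_neg (fun hc => hr ((cond_iff h t hi').mp hc).2)]
        rw [Set.indicator_of_notMem (show sub t i ∉ {u | r u ≠ 0} from hr)]
    · rw [Set.indicator_of_notMem ht]
      refine Finset.sum_eq_zero fun i hi => ?_
      have hi' := Finset.mem_range.mp hi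
      unfold s
      rw [if_neg (fun hc => ht ((cond_iff h t hi').mp hc).1)]
  calc 2 * Q0 p ph (Bk lam r F ∩ {t | size r t = ⊤})
      ≤ 2 * ∫⁻ t, ∑ i ∈ Finset.range (nch t), w r (sub t i) (rem t i) ∂(Q0 p ph) :=
        mul_le_mul_right h1 _
    _ = _ := by rw [h2, h3]

end Pool.Agent.Y532.UG.T3
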