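import Pool.Agent.Y782.UG.Stm

/-!
# No finite clusters without mass (project UG of helper782, part UG-U0)
-/

set_option autoImplicit false

open MeasureTheory ProbabilityTheory Filter Topology
open scoped ENNReal BigOperators

namespace Pool.Agent.Y532.UG

open Pool.Agent.Y782.UG

variable {Δ : ℕ}

lemma meas_sub (i : ℕ) : Measurable (fun t : Tr Δ => sub t i) := by
  refine measurable_pi_iff.mpr fun w => ?_
  exact measurable_pi_apply (i :: w)

lemma meas_mk : Measurable (fun x : Fin (Δ + 1) × (ℕ → Tr Δ) => mk x.1 x.2) := by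
  refine measurable_pi_iff.mpr fun w => ?_
  cases w with
  | nil => exact measurable_fst
  | cons a w => exact (measurable_pi_apply w).comp ((measurable_pi_apply a).comp measurable_snd)

lemma map_sub (p ph : Measure (Fin (Δ + 1))) [IsProbabilityMeasure p] [IsProbabilityMeasure ph]
    (i : ℕ) : (Q0 p ph).map (fun t => sub t i) = Q ph := by
  unfold Q0
  rw [Measure.map_map (meas_sub i) meas_mk]
  have h : ((fun t : Tr Δ => sub t i) ∘ fun x : Fin (Δ + 1) × (ℕ → Tr Δ) => mk x.1 x.2) =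
      (fun c : ℕ → Tr Δ => c i) ∘ Prod.snd := by
    funext x
    rfl
  rw [h, ← Measure.map_map (measurable_pi_apply i) measurable_snd]
  have h2 : Measure.map Prod.snd (p.prod (Measure.infinitePi (fun _ : ℕ => Q ph))) =
      Measure.infinitePi (fun _ : ℕ => Q ph) := by
    rw [Measure.map_snd_prod, measure_univ, one_smul]
  rw [h2]
  exact Measure.infinitePi_map_eval (fun _ : ℕ => Q ph) i

lemma map_root (p ph : Measure (Fin (Δ + 1))) [IsProbabilityMeasure p] [IsProbabilityMeasure ph] :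
    (Q0 p ph).map (fun t => t []) = p := by
  unfold Q0
  rw [Measure.map_map (measurable_pi_apply _) meas_mk]
  have h : ((fun t : Tr Δ => t []) ∘ fun x : Fin (Δ + 1) × (ℕ → Tr Δ) => mk x.1 x.2) =
      Prod.fst := by
    funext x
    rfl
  rw [h, Measure.map_fst_prod, measure_univ, one_smul]

/-- iterated subtrees -/
def itr : List ℕ → Tr Δ → Tr Δ
  | [], t => t
  | i :: w, t => itr w (sub t i)

lemma meas_itr (w : List ℕ) : Measurable (fun t : Tr Δ => itr w t) := by
  induction w with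
  | nil => exact measurable_id
  | cons i w ih => exact ih.comp (meas_sub i)

lemma map_itr (ph : Measure (Fin (Δ + 1))) [IsProbabilityMeasure ph] (hd : Q0 ph ph = Q ph)
    (w : List ℕ) : (Q ph).map (fun t => itr w t) = Q ph := by
  induction w with
  | nil => exact Measure.map_id
  | cons i w ih =>
    have h : (fun t : Tr Δ => itr (i :: w) t) = (fun t => itr w t) ∘ (fun t => sub t i) := rfl
    rw [h, ← Measure.map_map (meas_itr w) (meas_sub i)]
    have h2 : (Q ph).map (fun t => sub t i) = Q ph := by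
      have := map_sub ph ph i
      rw [hd] at this
      exact this
    rw [h2, ih]

/-- the good trees -/
def P (m : Tr Δ → ℝ) (u : Tr Δ) : Prop := m u = 0 ∧ 1 ≤ nch u

/-- all iterated subtrees are good -/
def H (m : Tr Δ → ℝ) (u : Tr Δ) : Prop := ∀ w : List ℕ, P m (itr w u)

lemma H_sub {m : Tr Δ → ℝ} {u : Tr Δ} (h : H m u) (i : ℕ) : H m (sub u i) :=
  fun w => h (i :: w)

lemma sz_ge {lam : ℝ} {m r D : Tr Δ → ℝ} {F : Set (Tr Δ)} (hT : Typ Δ lam m r D F) (n : ℕ) :
    ∀ u : Tr Δ, 1 ≤ nch u → (∀ i, H m (sub u i)) → (∀ i < nch u, sub u i ∈ F) →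
      (n : ℕ∞) ≤ sz r n u := by
  induction n with
  | zero => intro u _ _ _; simp
  | succ n ih =>
    intro u hu hH hF
    have hv : H m (sub u 0) := hH 0
    have hvF : sub u 0 ∈ F := hF 0 (by omega)
    have hvn : 1 ≤ nch (sub u 0) := (hv []).2
    have hm0 : ∀ j, m (sub (sub u 0) j) = 0 := fun j => (H_sub hv j []).1
    have hch : ∀ j < nch (sub u 0), sub (sub u 0) j ∈ F := by
      intro j hj
      by_contra hcon
      exact (hT.rd (sub u 0) (fun i _ => hm0 i) ⟨j, hj, hcon⟩).1 hvF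
    have hne : lam + ∑ i ∈ Finset.range (nch (sub u 0)), r (sub (sub u 0) i) ≠ 0 := by
      intro h0
      have h1 := hT.ra (sub u 0) hch h0
      have h2 := hT.Fm _ hvF
      have h3 : 0 ≤ ∑ i ∈ Finset.range (nch (sub u 0)), D (sub (sub u 0) i) :=
        Finset.sum_nonneg fun i hi => (hT.FD _ (hch i (Finset.mem_range.mp hi))).le
      rw [h2] at h1
      have h4 : (0 : ℝ) < 1 / (1 + ∑ i ∈ Finset.range (nch (sub u 0)), D (sub (sub u 0) i)) := by
        positivity
      linarith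
    have hr : r (sub u 0) ≠ 0 := by
      rw [(hT.rb (sub u 0) hch hne).2.1]
      exact div_ne_zero (by norm_num) hne
    have h5 := ih (sub u 0) hvn (fun j => H_sub hv j) hch
    have h6 : (if r (sub u 0) ≠ 0 then sz r n (sub u 0) else 0) ≤
        ∑ i ∈ Finset.range (nch u), (if r (sub u i) ≠ 0 then sz r n (sub u i) else 0) :=
      Finset.single_le_sum
        (f := fun i => (if r (sub u i) ≠ 0 then sz r n (sub u i) else (0 : ℕ∞)))
        (fun i _ => bot_le) (Finset.mem_range.mpr (by omega))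
    rw [if_pos hr] at h6
    show ((n + 1 : ℕ) : ℕ∞) ≤
      1 + ∑ i ∈ Finset.range (nch u), (if r (sub u i) ≠ 0 then sz r n (sub u i) else 0)
    calc ((n + 1 : ℕ) : ℕ∞) = 1 + (n : ℕ∞) := by push_cast; ring
      _ ≤ _ := add_le_add le_rfl (h5.trans h6)

lemma size_top {lam : ℝ} {m r D : Tr Δ → ℝ} {F : Set (Tr Δ)} (hT : Typ Δ lam m r D F) (u : Tr Δ)
    (hu : 1 ≤ nch u) (hH : ∀ i, H m (sub u i)) (hF : ∀ i < nch u, sub u i ∈ F) :
    size r u = ⊤ := by
  refine ENat.eq_top_iff_forall_ge.mpr fun n => ?_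
  exact (sz_ge hT n u hu hH hF).trans (le_iSup (fun n => sz r n u) n)

/-- **UG-U0.** -/
theorem u0 (h : S_DEC) : S_U0 := by
  intro Δ p ph _ _ mb hSB lam m r D F hT hm
  have hd : Q0 ph ph = Q ph := (h Δ ph ph).2
  -- almost every tree is good
  have hroot : ∀ᵐ u ∂(Q ph), 1 ≤ nch u := by
    have h1 : ∀ᵐ k : Fin (Δ + 1) ∂ph, 1 ≤ (k : ℕ) := by
      rw [ae_iff]
      convert hSB.ph1 using 2
      ext k
      simp
    have h2 : (Q ph).map (fun t => t []) = ph := by
      have := map_root ph ph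
      rw [hd] at this
      exact this
    rw [← h2] at h1
    exact ae_of_ae_map (measurable_pi_apply _).aemeasurable h1
  have hP : ∀ᵐ u ∂(Q ph), P m u := by
    have h1 : ∀ᵐ u ∂(Q ph), ¬ 0 < m u := by
      rw [ae_iff]
      simpa using hm
    filter_upwards [h1, hroot] with u hu1 hu2
    exact ⟨le_antisymm (not_lt.mp hu1) (hT.m0 u), hu2⟩
  have hH : ∀ᵐ u ∂(Q ph), H m u := by
    rw [show (∀ᵐ u ∂(Q ph), H m u) ↔ (∀ᵐ u ∂(Q ph), ∀ w : List ℕ, P m (itr w u)) from Iff.rfl,
      ae_all_iff]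
    intro w
    have h1 := hP
    rw [← map_itr ph hd w] at h1
    exact ae_of_ae_map (meas_itr w).aemeasurable h1
  -- under `Q0`
  have h1 : ∀ᵐ t ∂(Q0 p ph), ∀ i, H m (sub t i) := by
    rw [ae_all_iff]
    intro i
    have h2 := hH
    rw [← map_sub p ph i] at h2
    exact ae_of_ae_map (meas_sub i).aemeasurable h2
  have h2 : ∀ᵐ t ∂(Q0 p ph), 1 ≤ nch t := by
    have h3 : ∀ᵐ k : Fin (Δ + 1) ∂p, 1 ≤ (k : ℕ) := by
      have h4 : ∀ᵐ k : Fin (Δ + 1) ∂p, ¬ (k : ℕ) < 2 := by
        rw [ae_iff]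
        simpa using hSB.p2
      filter_upwards [h4] with k hk
      omega
    rw [← map_root p ph] at h3
    exact ae_of_ae_map (measurable_pi_apply _).aemeasurable h3
  have h3 : ∀ᵐ t ∂(Q0 p ph), ¬ t ∈ (Bk lam r F ∩ {t | size r t ≠ ⊤}) := by
    filter_upwards [h1, h2] with t ht1 ht2 ht
    exact ht.2 (size_top hT t ht2 ht1 ht.1.1)
  rw [ae_iff] at h3
  simpa only [not_not, Set.ofPred_mem_eq] using h3

end Pool.Agent.Y532.UG
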